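import Pool.Agent.TH152.HY.QDefs
import Pool.Agent.Y191.Lf

/-!
Quasi-projective varieties over the projective space of the polynomials of degree at most `n`,
ramified over the hyperplanes of the polynomials which vanish at given numbers.
-/

set_option autoImplicit false

open Pool.Agent.W602.Cov.R Pool.Agent.W602.GT Pool.Agent.TH152.HY
open Pool.Agent.Y191 (lf)

namespace Pool.Agent.Y216.LG

variable {N n q : ℕ}

/-- The morphism from `X - D` to `P^n` (the second projection), the projective space of the
polynomials `∑ l, y l * T ^ l` of degree at most `n`, is ramified to order at least `m i` over the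
hyperplane of the polynomials which vanish at `a i`, for all `i`; here `m i = 0` stands for
infinity. For every point of `X` over a field `L` with a discrete valuation `P` whose centre is in
`X - D`, and every `i` such that the point is not over the hyperplane of `a i`, the contact order
with this hyperplane, which is the valuation of the value of the polynomial at `a i` minus the
minimum `c` of the valuations of its coefficients, is zero, or `m i` is finite and the contact order
is at least `m i`. -/
def Ramified (X D : BiSet N n) (a : Fin q → ℂ) (m : Fin q → ℕ) : Prop :=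
  ∀ (L : Type) [Field L] [Algebra ℂ L] (x : Fin (N + 1) → L) (y : Fin (n + 1) → L), X.Mem x y →
    ∀ P : FF.Place ℂ L, ¬ CentreIn D x y P → ∀ c : ℤ, Norm P y c → ∀ i,
    lf (fun l : Fin (n + 1) => a i ^ (l : ℕ)) y ≠ 0 →
    P.ord (lf (fun l : Fin (n + 1) => a i ^ (l : ℕ)) y) = c ∨
      (m i ≠ 0 ∧ c + m i ≤ P.ord (lf (fun l : Fin (n + 1) => a i ^ (l : ℕ)) y))

/-- The weight `1 - 1 / ⌈m / r⌉` of the multiplicity `m`; `m = 0` stands for infinity, and then the
weight is `1`. -/
noncomputable def weight (r m : ℕ) : ℝ := 1 - 1 / (((m + r - 1) / r : ℕ) : ℝ)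

/-- All closed subvarieties of `X - D` of dimension `d` which are not contained in `G = 0` are of
log general type. The subvariety is given by its function field `L` and the homogeneous coordinates
`x`, `y` of its generic point. -/
def LangOffDim (X D : BiSet N n) (G : BiPoly N n) (d : ℕ) : Prop :=
  ∀ (L : Type) [Field L] [Algebra ℂ L] (x : Fin (N + 1) → L) (y : Fin (n + 1) → L),
    X.Mem x y → ¬ D.Mem x y → MvPolynomial.aeval (Sum.elim x y) G ≠ 0 →
    IntermediateField.adjoin ℂ
      ({f : L | ∃ i j, x j ≠ 0 ∧ f = x i / x j} ∪ {f : L | ∃ i j, y j ≠ 0 ∧ f = y i / y j}) = ⊤ →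
    Algebra.trdeg ℂ L = d → LogGeneralType ℂ L d (CentreIn D x y)

end Pool.Agent.Y216.LG
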