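import Pool.Agent.Y190.BV.Bez
import Pool.Agent.Y216.RncD

/-!
Forms which detect the polynomials with roots of high multiplicity.
-/

set_option autoImplicit false

open Polynomial

namespace Pool.Agent.Y216.LG

open Pool.Agent.Y190.BV Pool.Agent.Y216

/-- linear combination of the derivatives -/
noncomputable def cmb {R : Type} [CommRing R] {r : ℕ} (s : Fin r → R) (F : R[X]) : R[X] :=
  ∑ j : Fin r, C (s j) * derivative^[(j : ℕ) + 1] F

theorem cmb_map {R S : Type} [CommRing R] [CommRing S] (φ : R →+* S) {r : ℕ} (s : Fin r → R)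
    (F : R[X]) : (cmb s F).map φ = cmb (fun j => φ (s j)) (F.map φ) := by
  unfold cmb
  rw [Polynomial.map_sum]
  refine Finset.sum_congr rfl fun j _ => ?_
  rw [Polynomial.map_mul, Polynomial.map_C, Polynomial.iterate_derivative_map]

theorem cmb_deg {R : Type} [CommRing R] {r : ℕ} (s : Fin r → R) {F : R[X]} {d : ℕ}
    (hF : F.natDegree ≤ d) : (cmb s F).natDegree ≤ d - 1 := by
  unfold cmb
  refine Polynomial.natDegree_sum_le_of_forall_le _ _ fun j _ => ?_
  refine (Polynomial.natDegree_C_mul_le _ _).trans ?_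
  refine (Polynomial.natDegree_iterate_derivative _ _).trans ?_
  omega

/-- a generic combination of the derivatives has no common factor with the polynomial -/
theorem exists_cmb {K : Type} [Field K] [Algebra ℂ K] {r : ℕ} {F : K[X]} (hF : F ≠ 0)
    (hmult : ∀ p : K[X], Irreducible p → ¬ p ^ (r + 1) ∣ F) :
    ∃ s : Fin r → ℂ, IsCoprime F (cmb (fun j => algebraMap ℂ K (s j)) F) := by
  classical
  have hchK : CharZero K := charZero_of_injective_algebraMap (algebraMap ℂ K).injective
  obtain ⟨T, e, u, hu, hT, hHT, hTall⟩ := factor hF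
  let V : K[X] → Subspace ℂ (Fin r → ℂ) := fun p =>
    { carrier := {s | p ∣ cmb (fun j => algebraMap ℂ K (s j)) F}
      add_mem' := by
        intro s t hs ht
        have h1 : cmb (fun j => algebraMap ℂ K ((s + t) j)) F =
            cmb (fun j => algebraMap ℂ K (s j)) F + cmb (fun j => algebraMap ℂ K (t j)) F := by
          unfold cmb
          rw [← Finset.sum_add_distrib]
          refine Finset.sum_congr rfl fun j _ => ?_
          beta_reduce
          rw [Pi.add_apply, map_add, map_add, add_mul]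
        change p ∣ _
        rw [h1]
        exact dvd_add hs ht
      zero_mem' := by
        change p ∣ _
        have h1 : cmb (fun j => algebraMap ℂ K ((0 : Fin r → ℂ) j)) F = 0 := by
          unfold cmb
          refine Finset.sum_eq_zero fun j _ => ?_
          beta_reduce
          rw [Pi.zero_apply, map_zero, map_zero, zero_mul]
        rw [h1]
        exact dvd_zero p
      smul_mem' := by
        intro c s hs
        have h1 : cmb (fun j => algebraMap ℂ K ((c • s) j)) F =
            C (algebraMap ℂ K c) * cmb (fun j => algebraMap ℂ K (s j)) F := by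
          unfold cmb
          rw [Finset.mul_sum]
          refine Finset.sum_congr rfl fun j _ => ?_
          beta_reduce
          rw [Pi.smul_apply, smul_eq_mul, map_mul, map_mul, mul_assoc]
        change p ∣ _
        rw [h1]
        exact Dvd.dvd.mul_left hs _ }
  have hne := Subspace.biUnion_ne_univ_of_top_notMem (s := T.image V) (by
    intro h
    obtain ⟨p, hp, hpV⟩ := Finset.mem_image.1 h
    refine hmult p (hT p hp).1 (pow_dvd_of_derivs (hT p hp).1 (r + 1) F fun j hj => ?_)
    rcases Nat.eq_zero_or_pos j with rfl | hj0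
    · exact (hT p hp).2.2.1
    · have h1 : (Pi.single ⟨j - 1, by omega⟩ 1 : Fin r → ℂ) ∈ V p := by
        rw [hpV]
        exact Submodule.mem_top
      have h2 : p ∣ cmb (fun i => algebraMap ℂ K ((Pi.single ⟨j - 1, by omega⟩ 1 : Fin r → ℂ) i)) F :=
        h1
      have h3 : cmb (fun i => algebraMap ℂ K ((Pi.single ⟨j - 1, by omega⟩ 1 : Fin r → ℂ) i)) F =
          derivative^[j] F := by
        unfold cmb
        rw [Finset.sum_eq_single (⟨j - 1, by omega⟩ : Fin r)]
        · beta_reduce
          rw [Pi.single_eq_same, map_one, map_one, one_mul]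
          congr 2
          simp only
          omega
        · intro i _ hi
          beta_reduce
          rw [Pi.single_eq_of_ne hi, map_zero, map_zero, zero_mul]
        · intro h
          exact absurd (Finset.mem_univ _) h
      rwa [h3] at h2)
  obtain ⟨s, hs⟩ := (Set.ne_univ_iff_exists_notMem _).1 hne
  refine ⟨s, isCoprime_of_irreducible_dvd (fun h => hF h.1) fun z hz hzF hzs => hs ?_⟩
  have hz0 : z ≠ 0 := hz.ne_zero
  let z' := normalize z
  have hz' : Associated z z' := (normalize_associated z).symm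
  have hzT : z' ∈ T := hTall z' (hz'.irreducible hz) (Polynomial.monic_normalize hz0)
    (hz'.dvd_iff_dvd_left.1 hzF)
  refine Set.mem_biUnion (Finset.mem_coe.2 (Finset.mem_image_of_mem V hzT)) ?_
  exact hz'.dvd_iff_dvd_left.1 hzs

variable {n r : ℕ}

/-- the form of degree `2 d` -/
noncomputable def detForm (n : ℕ) {r : ℕ} (s : Fin r → ℂ) (d : Fin (n + 1)) :
    MvPolynomial (Fin (n + 1)) ℂ :=
  MvPolynomial.X d * resultant (pol fun j => (MvPolynomial.X j : MvPolynomial (Fin (n + 1)) ℂ))
    (cmb (fun j => MvPolynomial.C (s j)) (pol fun j => (MvPolynomial.X j :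
      MvPolynomial (Fin (n + 1)) ℂ))) d (d - 1)

theorem aeval_detForm {M : Type} [Field M] [Algebra ℂ M] (s : Fin r → ℂ) (d : Fin (n + 1))
    (f : Fin (n + 1) → M) : MvPolynomial.aeval f (detForm n s d) =
      f d * resultant (pol f) (cmb (fun j => algebraMap ℂ M (s j)) (pol f)) d (d - 1) := by
  unfold detForm
  rw [map_mul, MvPolynomial.aeval_X]
  congr 1
  have h1 := resultant_map_map
    (pol fun j => (MvPolynomial.X j : MvPolynomial (Fin (n + 1)) ℂ))
    (cmb (fun j => MvPolynomial.C (s j)) (pol fun j => (MvPolynomial.X j :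
      MvPolynomial (Fin (n + 1)) ℂ))) d (d - 1)
    (MvPolynomial.aeval f : MvPolynomial (Fin (n + 1)) ℂ →ₐ[ℂ] M).toRingHom
  rw [cmb_map, map_pol] at h1
  have h2 : (fun j => (MvPolynomial.aeval f : MvPolynomial (Fin (n + 1)) ℂ →ₐ[ℂ] M).toRingHom
      (MvPolynomial.X j)) = f := by
    funext j
    exact MvPolynomial.aeval_X f j
  have h3 : (fun j => (MvPolynomial.aeval f : MvPolynomial (Fin (n + 1)) ℂ →ₐ[ℂ] M).toRingHom
      (MvPolynomial.C (s j))) = fun j => algebraMap ℂ M (s j) := by
    funext j
    exact MvPolynomial.aeval_C f (s j)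
  rw [h2, h3] at h1
  exact h1.symm

theorem hom_derivative {P : (MvPolynomial (Fin (n + 1)) ℂ)[X]}
    (hP : ∀ i, (P.coeff i).IsHomogeneous 1) (k : ℕ) :
    ∀ i, ((derivative^[k] P).coeff i).IsHomogeneous 1 := by
  induction k with
  | zero => exact hP
  | succ k ih =>
    intro i
    rw [Function.iterate_succ_apply', coeff_derivative]
    have h1 : ((i : MvPolynomial (Fin (n + 1)) ℂ) + 1) = MvPolynomial.C ((i : ℂ) + 1) := by
      rw [map_add, map_one, map_natCast]
    rw [h1, mul_comm]
    have h2 := (MvPolynomial.isHomogeneous_C (Fin (n + 1)) ((i : ℂ) + 1)).mul (ih (i + 1))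
    rwa [zero_add] at h2

theorem detForm_hom (s : Fin r → ℂ) (d : Fin (n + 1)) :
    (detForm n s d).IsHomogeneous (1 + (d + (d - 1))) := by
  unfold detForm
  refine (MvPolynomial.isHomogeneous_X _ _).mul ?_
  unfold resultant
  refine isHomogeneous_det fun i j => ?_
  have hc : ∀ i, ((pol fun j => (MvPolynomial.X j : MvPolynomial (Fin (n + 1)) ℂ)).coeff
      i).IsHomogeneous 1 := by
    intro i
    by_cases hi : i < n + 1
    · rw [coeff_pol_lt _ hi]
      exact MvPolynomial.isHomogeneous_X _ _
    · rw [coeff_pol_ge _ (by omega)]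
      exact MvPolynomial.isHomogeneous_zero _ _ _
  have hc2 : ∀ i, ((cmb (fun j => MvPolynomial.C (s j)) (pol fun j => (MvPolynomial.X j :
      MvPolynomial (Fin (n + 1)) ℂ))).coeff i).IsHomogeneous 1 := by
    intro i
    unfold cmb
    rw [finsetSum_coeff]
    refine MvPolynomial.IsHomogeneous.sum _ _ _ fun j _ => ?_
    rw [coeff_C_mul]
    have h2 := (MvPolynomial.isHomogeneous_C (Fin (n + 1)) (s j)).mul
      (hom_derivative hc ((j : ℕ) + 1) i)
    rwa [zero_add] at h2
  rw [sylvester, Matrix.of_apply]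
  induction j using Fin.addCases with
  | left j =>
    rw [Fin.addCases_left]
    split_ifs
    · exact hc2 _
    · exact MvPolynomial.isHomogeneous_zero _ _ _
  | right j =>
    rw [Fin.addCases_right]
    split_ifs
    · exact hc _
    · exact MvPolynomial.isHomogeneous_zero _ _ _

/-- **The form.** -/
theorem exists_form {K : Type} [Field K] [Algebra ℂ K] (b : Fin (n + 1) → K) (hb : b ≠ 0)
    (hmult : ∀ p : K[X], Irreducible p → ¬ p ^ (r + 1) ∣ pol b) :
    ∃ (G : MvPolynomial (Fin (n + 1)) ℂ) (E : ℕ), G.IsHomogeneous E ∧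
      MvPolynomial.aeval b G ≠ 0 ∧
      ∀ (M : Type) [Field M] [Algebra ℂ M] (y : Fin (n + 1) → M), (∀ l, b l = 0 → y l = 0) →
        MvPolynomial.aeval y G ≠ 0 → ∀ p : M[X], Irreducible p → ¬ p ^ (r + 1) ∣ pol y := by
  have hb0 : pol b ≠ 0 := by
    intro h0
    apply hb
    funext l
    have h1 := coeff_pol b l
    rw [h0, coeff_zero] at h1
    exact h1.symm
  obtain ⟨s, hs⟩ := exists_cmb hb0 hmult
  have hdn : (pol b).natDegree < n + 1 := Nat.lt_succ_of_le (natDegree_pol_le b)
  let d : Fin (n + 1) := ⟨(pol b).natDegree, hdn⟩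
  have hbd : b d ≠ 0 := by
    have h1 := coeff_pol b d
    rw [← h1]
    exact leadingCoeff_ne_zero.2 hb0
  have hbz : ∀ l : Fin (n + 1), d < l → b l = 0 := by
    intro l hl
    rw [← coeff_pol b l]
    exact coeff_eq_zero_of_natDegree_lt hl
  refine ⟨detForm n s d, _, detForm_hom s d, ?_, ?_⟩
  · rw [aeval_detForm]
    refine mul_ne_zero hbd ?_
    have h1 := resultant_ne_zero _ _ hs
    have h2 : (cmb (fun j => algebraMap ℂ K (s j)) (pol b)).natDegree ≤ (d : ℕ) - 1 :=
      cmb_deg _ le_rfl
    obtain ⟨k, hk⟩ := Nat.exists_eq_add_of_le h2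
    have h3 := resultant_add_right_deg (pol b)
      (cmb (fun j => algebraMap ℂ K (s j)) (pol b)) (pol b).natDegree _ k
      (le_refl (cmb (fun j => algebraMap ℂ K (s j)) (pol b)).natDegree)
    rw [← hk] at h3
    change resultant (pol b) _ (pol b).natDegree _ ≠ 0
    rw [h3]
    exact mul_ne_zero (pow_ne_zero _ (leadingCoeff_ne_zero.2 hb0)) h1
  · intro M _ _ y hy hG p hp hdvd
    rw [aeval_detForm] at hG
    have hyd := left_ne_zero_of_mul hG
    have hR := right_ne_zero_of_mul hG
    have hdeg : (pol y).natDegree ≤ d := by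
      rw [natDegree_le_iff_coeff_eq_zero]
      intro N hN
      by_cases h : N < n + 1
      · rw [coeff_pol_lt _ h]
        exact hy _ (hbz ⟨N, h⟩ hN)
      · rw [coeff_pol_ge _ (by omega)]
    by_cases hd : (d : ℕ) ≠ 0
    · obtain ⟨A, B, -, -, hAB⟩ := exists_mul_add_mul_eq_C_resultant (pol y)
        (cmb (fun j => algebraMap ℂ M (s j)) (pol y)) hdeg (cmb_deg _ hdeg) (Or.inl hd)
      have h1 : p ∣ pol y := (dvd_pow_self p (Nat.succ_ne_zero r)).trans hdvd
      have h2 : p ∣ cmb (fun j => algebraMap ℂ M (s j)) (pol y) := by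
        unfold cmb
        refine Finset.dvd_sum fun j _ => Dvd.dvd.mul_left ?_ _
        have h3 : p ^ (r + 1 - ((j : ℕ) + 1)) ∣ derivative^[(j : ℕ) + 1] (pol y) :=
          pow_sub_dvd_iterate_derivative_of_pow_dvd _ hdvd
        refine (dvd_pow_self p ?_).trans h3
        omega
      have h3 : p ∣ C (resultant (pol y) (cmb (fun j => algebraMap ℂ M (s j)) (pol y)) d (d - 1)) := by
        rw [← hAB]
        exact dvd_add (Dvd.dvd.mul_right h1 _) (Dvd.dvd.mul_right h2 _)
      exact hp.not_isUnit (isUnit_of_dvd_unit h3 (isUnit_C.2 (isUnit_iff_ne_zero.2 hR)))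
    · rw [not_not] at hd
      have h1 : p ∣ pol y := (dvd_pow_self p (Nat.succ_ne_zero r)).trans hdvd
      have h2 : (pol y).natDegree = 0 := by omega
      have h3 := natDegree_eq_zero.1 h2
      obtain ⟨x, hx⟩ := h3
      have hx0 : x ≠ 0 := by
        rintro rfl
        apply hyd
        rw [← coeff_pol y d, ← hx]
        simp
      rw [← hx] at h1
      exact hp.not_isUnit (isUnit_of_dvd_unit h1 (isUnit_C.2 (isUnit_iff_ne_zero.2 hx0)))

end Pool.Agent.Y216.LG
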