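import Pool.Agent.Y190.BV.Rad

/-!
Polynomials over a function field whose roots have bounded multiplicities: the product of the
irreducible factors without constant roots, its contact orders, and the log general type of the
function field.
-/

set_option autoImplicit false

open FF Pool.Agent.W603.LV Pool.Agent.W602.GT Polynomial

namespace Pool.Agent.Y216.LG

open Pool.Agent.Y190.BV

variable {k K : Type} [Field k] [Field K] [Algebra k K]

/-- The irreducible factors without constant roots. -/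
theorem rad_data [Infinite k] {n r q : ℕ} (a : Fin q → k) (ha : Function.Injective a) (H : K[X])
    (hH : H ≠ 0) (hdeg : H.natDegree ≤ n)
    (hmult : ∀ p : K[X], Irreducible p → ¬ p ^ (r + 1) ∣ H) :
    ∃ (T T1 : Finset K[X]) (e : K[X] → ℕ) (u : K), u ≠ 0 ∧
      (∀ p ∈ T, Irreducible p ∧ p.Monic) ∧ H = C u * ∏ p ∈ T, p ^ e p ∧
      (∀ p ∈ T, 1 ≤ e p ∧ e p ≤ r) ∧ T1 ⊆ T ∧
      (∀ p ∈ T1, ∀ c : k, p.eval (algebraMap k K c) ≠ 0) ∧
      (∀ p ∈ T, p ∉ T1 → ∃ c : k, p.eval (algebraMap k K c) = 0) ∧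
      (∃ I0 : Finset (Fin q), (∀ i, i ∈ I0 ↔ H.eval (algebraMap k K (a i)) = 0) ∧
        (∏ p ∈ T1, p).natDegree + I0.card ≤ n) ∧
      ∀ (P : Place k K) (i : Fin q), H.eval (algebraMap k K (a i)) ≠ 0 →
        ct P (∏ p ∈ T1, p) (a i) ≤ ct P H (a i) ∧
          ct P H (a i) ≤ r * ct P (∏ p ∈ T1, p) (a i) := by
  classical
  obtain ⟨T, e, u, hu, hT, hHT, hTall⟩ := factor hH
  set T1 : Finset K[X] := T.filter (fun p => ∀ c : k, p.eval (algebraMap k K c) ≠ 0) with hT1
  set T0 : Finset K[X] := T.filter (fun p => ¬ ∀ c : k, p.eval (algebraMap k K c) ≠ 0) with hT0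
  have hT1T : ∀ p ∈ T1, p ∈ T := fun p hp => (Finset.mem_filter.1 hp).1
  have hem : ∀ p ∈ T, e p ≤ r := by
    intro p hp
    by_contra hcon
    push Not at hcon
    exact hmult p (hT p hp).1 ((pow_dvd_pow p hcon).trans (hT p hp).2.2.2.2)
  have hT2 : ∀ p ∈ T, p ∉ T1 → ∃ c : k, p.eval (algebraMap k K c) = 0 := by
    intro p hp hp1
    by_contra hcon
    push Not at hcon
    exact hp1 (Finset.mem_filter.2 ⟨hp, hcon⟩)
  refine ⟨T, T1, e, u, hu, fun p hp => ⟨(hT p hp).1, (hT p hp).2.1⟩, hHT,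
    fun p hp => ⟨(hT p hp).2.2.2.1, hem p hp⟩, Finset.filter_subset _ _,
    fun p hp => (Finset.mem_filter.1 hp).2, hT2, ?_, ?_⟩
  · set I0 : Finset (Fin q) :=
      Finset.univ.filter fun i => ¬ H.eval (algebraMap k K (a i)) ≠ 0 with hI0
    refine ⟨I0, fun i => by simp [hI0], ?_⟩
    have hdegT : ∑ p ∈ T, p.natDegree ≤ n := by
      have h1 : (∏ p ∈ T, p) ∣ H := by
        rw [hHT]
        refine Dvd.dvd.mul_left ?_ _
        exact Finset.prod_dvd_prod_of_dvd _ _ fun p hp =>
          dvd_pow_self p (by have := (hT p hp).2.2.2.1; omega)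
      have h2 := Polynomial.natDegree_le_of_dvd h1 hH
      rw [Polynomial.natDegree_prod _ _ fun p hp => (hT p hp).1.ne_zero] at h2
      exact h2.trans hdeg
    have hdegG : (∏ p ∈ T1, p).natDegree = ∑ p ∈ T1, p.natDegree := by
      rw [Polynomial.natDegree_prod _ _ fun p hp => (hT p (hT1T p hp)).1.ne_zero]
    have hI0T : I0.card ≤ ∑ p ∈ T0, p.natDegree := by
      have h1 : I0.card ≤ T0.card := by
        refine Finset.card_le_card_of_injOn
          (fun i => X - C (algebraMap k K (a i))) ?_ ?_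
        · intro i hi
          have hi2 := (Finset.mem_filter.1 hi).2
          rw [not_not] at hi2
          refine Finset.mem_coe.2 (Finset.mem_filter.2 ⟨hTall _ (Polynomial.irreducible_X_sub_C _)
            (Polynomial.monic_X_sub_C _) (Polynomial.dvd_iff_isRoot.2 hi2), ?_⟩)
          push Not
          exact ⟨a i, by simp⟩
        · intro i _ j _ hij
          have h2 := Polynomial.C_injective (sub_right_injective hij)
          exact ha ((algebraMap k K).injective h2)
      refine h1.trans ?_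
      rw [Finset.card_eq_sum_ones]
      refine Finset.sum_le_sum fun p hp => ?_
      exact (hT p (Finset.mem_filter.1 hp).1).1.natDegree_pos
    have hsplitT : ∑ p ∈ T1, p.natDegree + ∑ p ∈ T0, p.natDegree = ∑ p ∈ T, p.natDegree :=
      Finset.sum_filter_add_sum_filter_not _ _ _
    omega
  · intro P i hi
    have hpe : ∀ p ∈ T, p.eval (algebraMap k K (a i)) ≠ 0 := by
      intro p hp h0
      apply hi
      obtain ⟨r, hr⟩ := (hT p hp).2.2.1
      rw [hr, Polynomial.eval_mul, h0, zero_mul]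
    have h2 : ct P H (a i) = ∑ p ∈ T, (e p : ℤ) * ct P p (a i) := by
      have hprod : (∏ p ∈ T, p ^ e p).eval (algebraMap k K (a i)) ≠ 0 := by
        rw [Polynomial.eval_prod]
        refine Finset.prod_ne_zero_iff.2 fun p hp => ?_
        rw [Polynomial.eval_pow]
        exact pow_ne_zero _ (hpe p hp)
      rw [hHT, ct_mul P (by rw [Polynomial.eval_C]; exact hu) hprod, ct_C P hu, zero_add,
        ct_prod P T _ fun p hp => by
          rw [Polynomial.eval_pow]
          exact pow_ne_zero _ (hpe p hp)]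
      exact Finset.sum_congr rfl fun p hp => ct_pow P (hpe p hp) _
    have h4 : ct P H (a i) = ∑ p ∈ T1, (e p : ℤ) * ct P p (a i) := by
      rw [h2]
      symm
      refine Finset.sum_subset (Finset.filter_subset _ _) fun p hp hp1 => ?_
      obtain ⟨c, hc⟩ := hT2 p hp hp1
      have hpX := eq_X_sub_C (hT p hp).1 (hT p hp).2.1 hc
      have hij : a i ≠ c := by
        intro h
        apply hpe p hp
        rw [h]; exact hc
      rw [hpX, ct_X_sub_C P hij, mul_zero]
    have h5 : ct P (∏ p ∈ T1, p) (a i) = ∑ p ∈ T1, ct P p (a i) :=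
      ct_prod P T1 _ fun p hp => hpe p (hT1T p hp)
    rw [h4, h5]
    constructor
    · refine Finset.sum_le_sum fun p hp => ?_
      have h7 := ct_nonneg P (hpe p (hT1T p hp))
      have h8 : (1 : ℤ) ≤ e p := by exact_mod_cast (hT p (hT1T p hp)).2.2.2.1
      nlinarith
    · rw [Finset.mul_sum]
      refine Finset.sum_le_sum fun p hp => ?_
      have h7 := ct_nonneg P (hpe p (hT1T p hp))
      have h8 : (e p : ℤ) ≤ r := by exact_mod_cast hem p (hT1T p hp)
      exact mul_le_mul_of_nonneg_right h8 h7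

/-- contact of order zero or at least `m`; here `m = 0` stands for infinity -/
def Cm (m : ℕ) (e : ℤ) : Prop := e = 0 ∨ (m ≠ 0 ∧ (m : ℤ) ≤ e)

/-- weights -/
structure Wts {q : ℕ} (r A : ℕ) (m c : Fin q → ℕ) : Prop where
  le : ∀ i, c i ≤ A
  wt : ∀ i (g : ℕ), g ≠ 0 → m i ≠ 0 → m i ≤ r * g → (A : ℤ) ≤ (A - c i) * g

theorem sum_good {q n A b : ℕ} {c : Fin q → ℕ} (hcA : ∀ i, c i ≤ A) (I0 : Finset (Fin q))
    (h : A * n + b < ∑ i, c i) {d : ℕ} (hd : d + I0.card ≤ n) :
    A * d + b < ∑ i ∈ I0ᶜ, c i := by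
  have h1 : ∑ i ∈ I0ᶜ, c i + ∑ i ∈ I0, c i = ∑ i, c i := by
    rw [add_comm]
    exact Finset.sum_add_sum_compl _ _
  have h2 : ∑ i ∈ I0, c i ≤ I0.card * A := by
    calc _ ≤ ∑ i ∈ I0, A := Finset.sum_le_sum fun i _ => hcA i
      _ = _ := by rw [Finset.sum_const, smul_eq_mul]
  have h3 := Nat.mul_le_mul_left A hd
  rw [Nat.mul_add] at h3
  rw [mul_comm _ A] at h2
  omega

/-- **Log general type.** -/
theorem core_wt [IsAlgClosed k] [CharZero k] {w : ℕ} (htr : Algebra.trdeg k K = w) {n r q : ℕ}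
    (a : Fin q → k) (ha : Function.Injective a) {A : ℕ} {m c : Fin q → ℕ}
    (hc : Wts r A m c) (hbound : A * (n + w * (n + 1 - w)) < ∑ i, c i) (H : K[X]) (hH : H ≠ 0)
    (hdeg : H.natDegree ≤ n)
    (halg : Algebra.IsAlgebraic (Algebra.adjoin k {x | ∃ i j, x = H.coeff i / H.coeff j}) K)
    (hmult : ∀ p : K[X], Irreducible p → ¬ p ^ (r + 1) ∣ H) (Bd : Place k K → Prop)
    (hram : ∀ P : Place k K, Divisorial w P → ¬ Bd P → ∀ i,
      H.eval (algebraMap k K (a i)) ≠ 0 → Cm (m i) (ct P H (a i))) :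
    LogGeneralType k K w Bd := by
  classical
  have hchK : CharZero K := charZero_of_injective_algebraMap (algebraMap k K).injective
  have hinf : Infinite k := inferInstance
  obtain ⟨T, T1, e, u, hu, hT, hHT, hTe, hT1T, hT1c, hT2, ⟨I0, hI0, hdz⟩, hct⟩ :=
    rad_data (r := r) a ha H hH hdeg hmult
  set G : K[X] := ∏ p ∈ T1, p with hG
  have hGsep : G.Separable := by
    refine Polynomial.separable_prod' ?_ ?_
    · intro p hp r hr hpr
      exact coprime_of_ne (hT p (hT1T hp)).1 (hT r (hT1T hr)).1 (hT p (hT1T hp)).2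
        (hT r (hT1T hr)).2 hpr
    · intro p hp
      exact (hT p (hT1T hp)).1.separable
  have hG0 : G ≠ 0 := hGsep.ne_zero
  have hGa : ∀ c : k, G.eval (algebraMap k K c) ≠ 0 := by
    intro c
    rw [hG, Polynomial.eval_prod]
    exact Finset.prod_ne_zero_iff.2 fun p hp => hT1c p hp c
  -- the Galois extension
  let Q : K[X] := ∏ p ∈ T, p
  have hqsep : Q.Separable := by
    refine Polynomial.separable_prod' ?_ ?_
    · intro p hp r hr hpr
      exact coprime_of_ne (hT p hp).1 (hT r hr).1 (hT p hp).2 (hT r hr).2 hpr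
    · intro p hp
      exact (hT p hp).1.separable
  let L := Q.SplittingField
  have hgal : IsGalois K L := IsGalois.of_separable_splitting_field hqsep
  have hqs : (Q.map (algebraMap K L)).Splits := Polynomial.SplittingField.splits Q
  have hps : ∀ p ∈ T, (p.map (algebraMap K L)).Splits := by
    intro p hp
    exact hqs.of_dvd (Polynomial.map_ne_zero hqsep.ne_zero)
      (Polynomial.map_dvd _ (Finset.dvd_prod_of_mem _ hp))
  have hGs : (G.map (algebraMap K L)).Splits := by
    refine hqs.of_dvd (Polynomial.map_ne_zero hqsep.ne_zero) (Polynomial.map_dvd _ ?_)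
    exact Finset.prod_dvd_prod_of_subset _ _ _ hT1T
  have hHs : (H.map (algebraMap K L)).Splits := by
    rw [hHT, Polynomial.map_mul, Polynomial.map_C, Polynomial.map_prod]
    refine (Polynomial.Splits.C _).mul (Polynomial.Splits.prod fun p hp => ?_)
    rw [Polynomial.map_pow]
    exact (hps p hp).pow _
  have hS : Algebra.IsAlgebraic (Algebra.adjoin k (G.rootSet L)) L := by
    refine alg_of_roots H hH hHs halg _ fun t ht => ?_
    rw [hHT, map_mul, aeval_C, map_prod] at ht
    have h1 := (mul_eq_zero.1 ht).resolve_left ((_root_.map_ne_zero _).2 hu)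
    obtain ⟨p, hp, hp2⟩ := Finset.prod_eq_zero_iff.1 h1
    rw [map_pow] at hp2
    have hp3 := eq_zero_of_pow_eq_zero hp2
    by_cases hp1 : p ∈ T1
    · apply IntermediateField.subset_adjoin k _
      rw [Polynomial.mem_rootSet]
      refine ⟨hG0, ?_⟩
      rw [hG, map_prod]
      exact Finset.prod_eq_zero hp1 hp3
    · obtain ⟨i, hi⟩ := hT2 p hp hp1
      rw [eq_X_sub_C (hT p hp).1 (hT p hp).2 hi, map_sub, aeval_X, aeval_C, sub_eq_zero] at hp3
      rw [hp3, ← IsScalarTower.algebraMap_apply]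
      exact IntermediateField.algebraMap_mem _ _
  -- the good nodes
  let ee := (I0ᶜ).equivFin.symm
  have hee : ∀ i, H.eval (algebraMap k K (a (ee i))) ≠ 0 := fun i h0 =>
    (Finset.mem_compl.1 (ee i).2) ((hI0 _).2 h0)
  have hsum : ∑ i, c (ee i) = ∑ i ∈ I0ᶜ, c i := by
    rw [← Finset.sum_coe_sort I0ᶜ c]
    exact Equiv.sum_comp ee (fun i : (I0ᶜ : Finset (Fin q)) => c i)
  refine core' (L := L) htr G hGsep hGs hS (fun i => a (ee i))
    (fun i j hij => ee.injective (Subtype.ext (ha hij))) A (fun i => c (ee i))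
    (fun i => hc.le _) ?_ (fun i => hGa _) _ ?_
  · rw [hsum]
    have h1 := sum_good (b := A * (w * (n + 1 - w))) hc.le I0
      (by rw [← Nat.mul_add]; exact hbound) hdz
    have h2 : w * (G.natDegree + 1 - w) ≤ w * (n + 1 - w) :=
      Nat.mul_le_mul_left _ (by omega)
    have h3 := Nat.mul_le_mul_left A h2
    rw [Nat.mul_add]
    omega
  · intro P hP hBd j0 hj0 hj1 i
    have h1 : P.ord (G.coeff j0) = cnt P G := by
      refine (cnt_unique P (fun j => ?_) ⟨j0, hj0, rfl⟩).symm
      exact hj1 j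
    rw [h1]
    obtain ⟨h2, h3⟩ := hct P (ee i) (hee i)
    have h4 := hram P hP hBd (ee i) (hee i)
    have h5 : 0 ≤ ct P G (a (ee i)) := ct_nonneg P (hGa _)
    by_cases h0 : ct P G (a (ee i)) = 0
    · left
      unfold ct at h0
      omega
    · right
      obtain ⟨g, hg⟩ := Int.eq_ofNat_of_zero_le h5
      have hct' : P.ord (G.eval (algebraMap k K (a (ee i)))) - cnt P G = ct P G (a (ee i)) := rfl
      rw [hct', hg]
      rcases h4 with h4 | ⟨h4, h6⟩
      · exfalso
        apply h0
        omega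
      · refine hc.wt (ee i) g (by rintro rfl; exact h0 hg) h4 ?_
        rw [hg] at h3
        exact_mod_cast h6.trans h3

end Pool.Agent.Y216.LG
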