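import Pool.Agent.Y190.AN.Pow
import Pool.Agent.Y216.LG.Rad

/-!
Polynomials over the field of the meromorphic functions near infinity whose roots have bounded
multiplicities and which are ramified, with weights, over constants.
-/

set_option autoImplicit false

open Filter Topology Set Metric Polynomial

namespace Pool.Agent.Y216.LG

open FF Pool.Agent.W603.BP Pool.Agent.W601.PH Pool.Agent.Y216 Pool.Agent.Y190.BV
  Pool.Agent.W603.LV Pool.Agent.Y190.AN
open Pool.Agent.W601.SM (dF)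

variable {r0 : ℝ} {hr0 : 0 < r0}

/-- Ramified polynomials are meromorphic at infinity. -/
theorem ratios_wt {R : (MK (exD r0 hr0))[X]} {d : ℕ} (hdeg : R.natDegree = d) (hd : 1 ≤ d)
    (hsq : Squarefree R) (hroot : ∀ b : ℂ, R.eval (algebraMap ℂ (MK (exD r0 hr0)) b) ≠ 0)
    {p : ℕ} (a : Fin (p + 1) → ℂ) (ha : Function.Injective a) {A : ℕ} (c : Fin (p + 1) → ℕ)
    (hcA : ∀ i, c i ≤ A) (hp : 2 * d * A < ∑ i, c i)
    (hct : ∀ (z : ℂ) (hz : z ∈ (exD r0 hr0).U) (b : Fin (p + 1) → ℕ),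
      (∀ i, ct (PL hz) R (a i) = b i) → ∑ i, c i * b i ≤ A * ∑ i, (b i - 1)) (i : Fin (p + 1)) :
    R.eval (algebraMap ℂ (MK (exD r0 hr0)) (a i)) /
      R.eval (algebraMap ℂ (MK (exD r0 hr0)) (a 0)) ∈ Minf r0 hr0 := by
  classical
  have hR0 : R ≠ 0 := by
    rintro rfl
    exact hroot 0 (eval_zero)
  let x : Fin (d + 1) → MK (exD r0 hr0) := fun j => R.coeff j
  have hpx : R = pol x := eq_pol hdeg.le
  have hxl : x (Fin.last d) ≠ 0 := by
    change R.coeff ((Fin.last d : Fin (d + 1)) : ℕ) ≠ 0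
    rw [Fin.val_last, ← hdeg, coeff_natDegree]
    exact leadingCoeff_ne_zero.2 hR0
  obtain ⟨r1, h01, s, G, hG, hs, hGan, hGnz, hxG⟩ := primitive hr0 x fun h0 =>
    hxl (congrFun h0 _)
  let y : Fin (d + 1) → MK (exD r0 hr0) := fun j => cl (fun z => G z j) (hG j)
  have hxy : x = fun j => s * y j := funext hxG
  have hRy : R = C s * pol y := by rw [hpx, hxy, pol_smul]
  have hyl : y (Fin.last d) ≠ 0 := by
    intro h0
    apply hxl
    rw [hxG]
    exact mul_eq_zero_of_right s h0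
  have hysq : Squarefree (pol y) := by
    rw [hRy] at hsq
    exact hsq.of_mul_right
  have hyroot : ∀ b : ℂ, (pol y).eval (algebraMap ℂ (MK (exD r0 hr0)) b) ≠ 0 := by
    intro b h0
    apply hroot b
    rw [hRy, eval_mul, h0, mul_zero]
  -- the linear forms
  let u : Fin (p + 1) → ℂ := fun _ => 1
  have huv : ∀ i j, i ≠ j → u i * a j ≠ u j * a i := by
    intro i j hij h
    simp only [u, one_mul] at h
    exact hij (ha h.symm)
  have hUM : ∀ i, MeromorphicOn (Uf u a G i) (exD r0 hr0).U := by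
    intro i
    have h1 : MeromorphicOn (fun z => ∑ l, rnc d u a i l * G z l) (exD r0 hr0).U :=
      MeromorphicOn.fun_sum fun l => (MeromorphicOn.const _).fun_mul (hG l)
    exact h1
  have hUcl : ∀ i, cl (Uf u a G i) (hUM i) =
      (pol y).eval (algebraMap ℂ (MK (exD r0 hr0)) (a i)) := by
    intro i
    have h1 := cl_lin (fun l z => G z l) hG (rnc d u a i) (hUM i)
    refine h1.trans ?_
    unfold pol
    rw [eval_finsetSum]
    refine Finset.sum_congr rfl fun l _ => ?_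
    rw [eval_mul, eval_C, eval_pow, eval_X, ← map_pow, mul_comm]
    have h2 : rnc d u a i l = a i ^ (l : ℕ) := by
      simp [rnc, u]
    rw [h2]
  have hUne : ∀ i, cl (Uf u a G i) (hUM i) ≠ 0 := fun i => by
    rw [hUcl]
    exact hyroot (a i)
  have hr1 : 0 < r1 := hr0.trans h01
  have hsubU : ∀ z ∈ Ext r1, z ∈ (exD r0 hr0).U := fun z hz => Ext_mono h01.le hz
  have hne_of : ∀ (f : ℂ → ℂ) (hf : MeromorphicOn f (exD r0 hr0).U), cl f hf ≠ 0 →
      ∃ z ∈ Ext r1, f z ≠ 0 := by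
    intro f hf hf0
    by_contra hcon
    push Not at hcon
    obtain ⟨z1, hz1⟩ := Ext_nonempty r1
    apply hf0
    rw [cl_eq_zero]
    refine zero_all hf (hsubU z1 hz1) ?_
    filter_upwards [nhdsWithin_le_nhds ((Ext_open r1).mem_nhds hz1)] with w hw
    exact hcon w hw
  obtain ⟨hPM, hPcl⟩ := cl_Pf G hG
  have hPne : cl (Pf G) hPM ≠ 0 := by
    rw [hPcl]
    exact res_ne_zero' (D := MDer (exD r0 hr0)) (fun x hx => MDer_eq_zero hx) hyl hysq hyroot
  -- the orders
  have hcnt : ∀ z (hz : z ∈ Ext r1), cnt (PL (hsubU z hz)) R = (PL (hsubU z hz)).ord s := by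
    intro z hz
    apply cnt_unique
    · intro j
      rw [hRy, coeff_C_mul]
      by_cases hj : j < d + 1
      · rw [coeff_pol_lt _ hj]
        have h1 : Ge (PL (hsubU z hz)) 0 (y ⟨j, hj⟩) := ge_cl _ (hGan z hz ⟨j, hj⟩)
        have h2 : Ge (PL (hsubU z hz)) ((PL (hsubU z hz)).ord s) s := Or.inr le_rfl
        have := h2.mul h1
        rwa [add_zero] at this
      · rw [coeff_pol_ge _ (by omega), mul_zero]
        exact Ge.zero
    · obtain ⟨j, hj⟩ := Function.ne_iff.1 (hGnz z hz)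
      have h1 : analyticOrderAt (fun z => G z j) z = ((0 : ℕ) : ℕ∞) := by
        rw [Nat.cast_zero, (hGan z hz j).analyticOrderAt_eq_zero]
        exact hj
      have h2 : (PL (hsubU z hz)).ord (y j) = 0 := by
        have := ord_cl (hg := hG j) (hsubU z hz) (hGan z hz j) h1
        exact_mod_cast this
      have h3 : y j ≠ 0 := by
        intro h0
        have h4 := cl_eq_zero.1 h0 z (hsubU z hz)
        have h5 : ∀ᶠ w in 𝓝[≠] z, G w j ≠ 0 :=
          nhdsWithin_le_nhds ((hGan z hz j).continuousAt.eventually_ne hj)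
        obtain ⟨w, hw1, hw2⟩ := (h4.and h5).exists
        exact hw2 hw1
      refine ⟨(j : ℕ), ?_, ?_⟩
      · rw [hRy, coeff_C_mul, coeff_pol]
        exact mul_ne_zero hs h3
      · rw [hRy, coeff_C_mul, coeff_pol, (PL (hsubU z hz)).ord_mul hs h3, h2, add_zero]
  have hord : ∀ z (hz : z ∈ Ext r1) i (b : ℕ), analyticOrderAt (Uf u a G i) z = b →
      ct (PL (hsubU z hz)) R (a i) = b := by
    intro z hz i b hb
    unfold ct
    rw [hcnt z hz, hRy, eval_mul, eval_C, ← hUcl, (PL (hsubU z hz)).ord_mul hs (hUne i),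
      ord_cl (hg := hUM i) (hsubU z hz) (evi_an (hGan z hz) i) hb]
    ring
  obtain ⟨Q, hQ, R0, hQ'⟩ := core_rs (n := d) huv hr1 c hcA hp hGan hGnz
    (fun i => hne_of _ (hUM i) (hUne i)) (hne_of _ hPM hPne)
    (fun z hz b hb => hct z (hsubU z hz) b fun i => hord z hz i (b i) (hb i)) i
  have e : R.eval (algebraMap ℂ (MK (exD r0 hr0)) (a i)) /
      R.eval (algebraMap ℂ (MK (exD r0 hr0)) (a 0)) =
      cl (Uf u a G i / Uf u a G 0) ((hUM i).div (hUM 0)) := by
    rw [← cl_div (hUM i) (hUM 0), hUcl, hUcl, hRy, eval_mul, eval_mul, eval_C, eval_C,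
      mul_div_mul_left _ _ hs]
  rw [e]
  refine mem_of_large (R := Q) (R0 := max R0 r0) hQ fun z hz => ?_
  have hzR : R0 < ‖z‖ := lt_of_le_of_lt (le_max_left _ _) hz
  have hzU : z ∈ (exD r0 hr0).U := lt_of_le_of_lt (le_max_right R0 r0) hz
  have h2 := (meromorphicOrderAt_ne_top_iff_eventually_ne_zero (hUM 0 z hzU)).1
    (cl_ne_zero (hUne 0) z hzU)
  have h3 : ∀ᶠ w in 𝓝 z, R0 < ‖w‖ := (continuous_norm.tendsto z).eventually_const_lt hzR
  filter_upwards [h2, nhdsWithin_le_nhds h3] with w hw1 hw2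
  rw [Pi.div_apply, hQ' w hw2, mul_div_cancel_right₀ _ hw1]



/-- **Ramified polynomials with roots of bounded multiplicities are meromorphic at infinity.** -/
theorem wt_Minf {n r q : ℕ} (a : Fin q → ℂ) (ha : Function.Injective a) {A : ℕ}
    {m c : Fin q → ℕ} (hc : Wts r A m c) (hbound : A * (2 * n) < ∑ i, c i)
    (H : (MK (exD r0 hr0))[X]) (hH : H ≠ 0) (hdeg : H.natDegree ≤ n)
    (hmult : ∀ p : (MK (exD r0 hr0))[X], Irreducible p → ¬ p ^ (r + 1) ∣ H)
    (hram : ∀ (z : ℂ) (hz : z ∈ (exD r0 hr0).U) (i : Fin q),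
      H.eval (algebraMap ℂ (MK (exD r0 hr0)) (a i)) ≠ 0 → Cm (m i) (ct (PL hz) H (a i))) :
    ∃ (u : MK (exD r0 hr0)) (H' : (Minf r0 hr0)[X]), u ≠ 0 ∧
      H = C u * H'.map (algebraMap (Minf r0 hr0) (MK (exD r0 hr0))) := by
  classical
  have hchK : CharZero (MK (exD r0 hr0)) :=
    charZero_of_injective_algebraMap (algebraMap ℂ (MK (exD r0 hr0))).injective
  obtain ⟨T, T1, e, u, hu, hT, hHT, hTe, hT1T, hT1c, hT2, ⟨I0, hI0, hdz⟩, hct⟩ :=
    rad_data (r := r) a ha H hH hdeg hmult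
  set G : (MK (exD r0 hr0))[X] := ∏ p ∈ T1, p with hG
  have hGsep : G.Separable := by
    refine Polynomial.separable_prod' ?_ ?_
    · intro p hp r hr hpr
      exact coprime_of_ne (hT p (hT1T hp)).1 (hT r (hT1T hr)).1 (hT p (hT1T hp)).2
        (hT r (hT1T hr)).2 hpr
    · intro p hp
      exact (hT p (hT1T hp)).1.separable
  have hGm : G.Monic := Polynomial.monic_prod_of_monic _ _ fun p hp => (hT p (hT1T hp)).2
  have hG0 : G ≠ 0 := hGsep.ne_zero
  have hGa : ∀ c : ℂ, G.eval (algebraMap ℂ (MK (exD r0 hr0)) c) ≠ 0 := by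
    intro c
    rw [hG, Polynomial.eval_prod]
    exact Finset.prod_ne_zero_iff.2 fun p hp => hT1c p hp c
  -- the good nodes
  have hgood := sum_good (b := A * n) hc.le I0 (n := n) (by
    have : A * (2 * n) = A * n + A * n := by ring
    omega) hdz
  have hdn : A * G.natDegree ≤ A * n := Nat.mul_le_mul_left _ (by omega)
  have hAd : 2 * G.natDegree * A < ∑ i ∈ I0ᶜ, c i := by
    have : 2 * G.natDegree * A = A * G.natDegree + A * G.natDegree := by ring
    omega
  have hcard : ∑ i ∈ I0ᶜ, c i ≤ (I0ᶜ).card * A := by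
    calc _ ≤ ∑ i ∈ I0ᶜ, A := Finset.sum_le_sum fun i _ => hc.le i
      _ = _ := by rw [Finset.sum_const, smul_eq_mul]
  have hcard2 : 2 * G.natDegree < (I0ᶜ).card := by
    by_contra hcon
    push Not at hcon
    have := Nat.mul_le_mul_right A hcon
    omega
  obtain ⟨q', hq'⟩ : ∃ q', (I0ᶜ).card = q' + 1 := ⟨(I0ᶜ).card - 1, by omega⟩
  let ee : Fin (q' + 1) ≃ (I0ᶜ : Finset (Fin q)) :=
    (Fintype.equivFinOfCardEq (by rw [Fintype.card_coe]; exact hq')).symm
  have hee : ∀ i, H.eval (algebraMap ℂ (MK (exD r0 hr0)) (a (ee i))) ≠ 0 := fun i h0 =>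
    (Finset.mem_compl.1 (ee i).2) ((hI0 _).2 h0)
  have hsum : ∑ i, c (ee i) = ∑ i ∈ I0ᶜ, c i := by
    rw [← Finset.sum_coe_sort I0ᶜ c]
    exact Equiv.sum_comp ee (fun i : (I0ᶜ : Finset (Fin q)) => c i)
  have haee : Function.Injective fun i => a (ee i) := fun i j hij =>
    ee.injective (Subtype.ext (ha hij))
  -- the polynomial `G`
  have hGM : ∃ G' : (Minf r0 hr0)[X], G'.Monic ∧
      G'.map (algebraMap (Minf r0 hr0) (MK (exD r0 hr0))) = G := by
    by_cases hd : G.natDegree = 0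
    · have h1 := Polynomial.eq_one_of_monic_natDegree_zero hGm hd
      exact ⟨1, Polynomial.monic_one, by rw [Polynomial.map_one, h1]⟩
    · refine interp_mem (Minf r0 hr0) (fun i => a (ee i)) haee hGm (by omega) (fun i => ?_)
        (hGa _)
      refine ratios_wt (d := G.natDegree) rfl (by omega) hGsep.squarefree hGa
        (fun i => a (ee i)) haee (fun i => c (ee i)) (fun i => hc.le _) (by rw [hsum]; exact hAd)
        (fun z hz b hb => ?_) i
      rw [Finset.mul_sum]
      refine Finset.sum_le_sum fun i _ => ?_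
      obtain ⟨h2, h3⟩ := hct (PL hz) (ee i) (hee i)
      have h4 := hram z hz (ee i) (hee i)
      have h6 : ct (PL hz) G (a (ee i)) = b i := hb i
      rw [h6] at h2 h3
      rcases Nat.eq_zero_or_pos (b i) with h0 | h0
      · rw [h0]
        simp
      rcases h4 with h4 | ⟨h4, h5⟩
      · exfalso
        rw [h4] at h2
        have : (b i : ℤ) ≤ 0 := h2
        omega
      · have h7 := hc.wt (ee i) (b i) (by omega) h4 (by exact_mod_cast h5.trans h3)
        have h8 := hc.le (ee i)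
        obtain ⟨t, ht⟩ : ∃ t, b i = t + 1 := ⟨b i - 1, by omega⟩
        rw [ht] at h7 ⊢
        rw [Nat.add_sub_cancel]
        have h9 : ((c (ee i) * (t + 1) : ℕ) : ℤ) ≤ ((A * t : ℕ) : ℤ) := by
          push_cast at h7 ⊢
          nlinarith
        exact_mod_cast h9
  obtain ⟨G', hG'm, hG'⟩ := hGM
  have hfac : ∀ p ∈ T, ∃ p' : (Minf r0 hr0)[X],
      p'.map (algebraMap (Minf r0 hr0) (MK (exD r0 hr0))) = p := by
    intro p hp
    by_cases h : p ∈ T1
    · refine factor_mem (Minf r0 hr0) (fun x hx => Minf_closed hx) hG'm (hT p hp).2 ?_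
      rw [hG']
      exact Finset.dvd_prod_of_mem _ h
    · obtain ⟨c, hc⟩ := hT2 p hp h
      refine ⟨X - C (algebraMap ℂ (Minf r0 hr0) c), ?_⟩
      rw [Polynomial.map_sub, Polynomial.map_X, Polynomial.map_C,
        ← IsScalarTower.algebraMap_apply]
      exact (eq_X_sub_C (hT p hp).1 (hT p hp).2 hc).symm
  choose! p' hp' using hfac
  refine ⟨u, ∏ p ∈ T, p' p ^ e p, hu, ?_⟩
  rw [hHT, Polynomial.map_prod]
  congr 1
  refine Finset.prod_congr rfl fun p hp => ?_
  rw [Polynomial.map_pow, hp' p hp]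

end Pool.Agent.Y216.LG
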