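import Pool.Agent.Y190.AN.Pic
import Pool.Agent.Y191.Five
import Pool.Agent.Y216.LG.Inf
import Pool.Agent.Y216.LG.Form
import Pool.Agent.Y216.LG.Defs

/-!
Holomorphic maps from the punctured disc to quasi-projective varieties over the space of
polynomials, ramified over the hyperplanes of the polynomials which vanish at given numbers.
-/

set_option autoImplicit false

open Filter Topology Set Metric

namespace Pool.Agent.Y216.LG

open FF Pool.Agent.W603.BP Pool.Agent.W601.PH Pool.Agent.Y216 Pool.Agent.Y190.BV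
  Pool.Agent.Y190.AN Pool.Agent.W602.Cov.R
open Pool.Agent.TH152.HY hiding aeval_inr main
open Pool.Agent.Y191 (lf)

section val

variable {D : Dm} {σ : Type} [Fintype σ]

theorem eval_mero' (G : MvPolynomial σ ℂ) {g : σ → ℂ → ℂ} (hg : ∀ i, MeromorphicOn (g i) D.U) :
    MeromorphicOn (fun z => MvPolynomial.eval (fun i => g i z) G) D.U := by
  intro z hz
  simp only [MvPolynomial.eval_eq']
  apply MeromorphicAt.fun_sum
  intro α _
  apply (MeromorphicAt.const _ z).fun_mul
  apply MeromorphicAt.fun_prod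
  intro j _
  exact (hg j z hz).fun_pow _

omit [Fintype σ] in
theorem aeval_cl (G : MvPolynomial σ ℂ) {g : σ → ℂ → ℂ} (hg : ∀ i, MeromorphicOn (g i) D.U)
    (h : MeromorphicOn (fun z => MvPolynomial.eval (fun i => g i z) G) D.U) :
    MvPolynomial.aeval (fun i => cl (g i) (hg i)) G =
      cl (fun z => MvPolynomial.eval (fun i => g i z) G) h := by
  let g' : σ → MS D := fun i => ⟨g i, hg i⟩
  have h1 : MvPolynomial.aeval (fun i => cl (g i) (hg i)) G =
      Ideal.Quotient.mkₐ ℂ (MJ D) (MvPolynomial.aeval g' G) := by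
    have e : (Ideal.Quotient.mkₐ ℂ (MJ D)).comp (MvPolynomial.aeval g') =
        MvPolynomial.aeval (fun i => cl (g i) (hg i)) := by
      apply MvPolynomial.algHom_ext
      intro i
      simp only [AlgHom.comp_apply, MvPolynomial.aeval_X]
      rfl
    rw [← e]
    rfl
  have h2 : (MvPolynomial.aeval g' G : MS D).1 =
      fun z => MvPolynomial.eval (fun i => g i z) G := by
    funext z
    let φ : MS D →ₐ[ℂ] ℂ := (Pi.evalAlgHom ℂ (fun _ : ℂ => ℂ) z).comp (MS D).val
    have e : φ.comp (MvPolynomial.aeval g') = MvPolynomial.aeval (fun i => g i z) := by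
      apply MvPolynomial.algHom_ext
      intro i
      simp only [AlgHom.comp_apply, MvPolynomial.aeval_X]
      rfl
    have h3 := congrArg (fun ψ : MvPolynomial σ ℂ →ₐ[ℂ] ℂ => ψ G) e
    simp only [AlgHom.comp_apply] at h3
    rw [MvPolynomial.aeval_eq_eval] at h3
    exact h3
  rw [h1]
  change cl (MvPolynomial.aeval g' G : MS D).1 _ = _
  congr 1

end val

/-- the values of the polynomial -/
theorem eval_pol_eq {n : ℕ} {L : Type} [Field L] [Algebra ℂ L] (y : Fin (n + 1) → L) (a : ℂ) :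
    (pol y).eval (algebraMap ℂ L a) = lf (fun l : Fin (n + 1) => a ^ (l : ℕ)) y := by
  unfold pol lf
  rw [Polynomial.eval_finsetSum]
  refine Finset.sum_congr rfl fun l _ => ?_
  rw [Polynomial.eval_mul, Polynomial.eval_C, Polynomial.eval_pow, Polynomial.eval_X, map_pow,
    mul_comm]

theorem pol_ne {n : ℕ} {L : Type} [Field L] {y : Fin (n + 1) → L} (hy : y ≠ 0) : pol y ≠ 0 := by
  intro h0
  apply hy
  funext l
  have h1 := coeff_pol y l
  rw [h0, Polynomial.coeff_zero] at h1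
  exact h1.symm

/-- the content -/
theorem cnt_pol {n : ℕ} {L : Type} [Field L] [Algebra ℂ L] {P : Place ℂ L} {y : Fin (n + 1) → L}
    {c : ℤ} (h : Norm P y c) : cnt P (pol y) = c := by
  obtain ⟨h1, j, hj, hj2⟩ := h
  apply cnt_unique
  · intro i
    by_cases hi : i < n + 1
    · rw [coeff_pol_lt _ hi]
      by_cases h0 : y ⟨i, hi⟩ = 0
      · exact Or.inl h0
      · exact Or.inr (h1 _ h0)
    · rw [coeff_pol_ge _ (by omega)]
      exact Or.inl rfl
  · exact ⟨(j : ℕ), by rw [coeff_pol]; exact hj, by rw [coeff_pol]; exact hj2⟩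

theorem Ramified.cm {N n q : ℕ} {X D : BiSet N n} {a : Fin q → ℂ} {m : Fin q → ℕ}
    (h : Ramified X D a m) {L : Type} [Field L] [Algebra ℂ L] {x : Fin (N + 1) → L}
    {y : Fin (n + 1) → L} (hxy : X.Mem x y) {P : FF.Place ℂ L} (hP : ¬ CentreIn D x y P) (i : Fin q)
    (hi : (pol y).eval (algebraMap ℂ L (a i)) ≠ 0) : Cm (m i) (ct P (pol y) (a i)) := by
  obtain ⟨j, hj, hj2⟩ := cnt_att P (pol_ne hxy.2.1)
  have hN : Norm P y (cnt P (pol y)) := by
    constructor
    · intro l hl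
      rcases cnt_ge P (pol y) (l : ℕ) with h0 | h0
      · rw [coeff_pol] at h0
        exact absurd h0 hl
      · rwa [coeff_pol] at h0
    · by_cases hj3 : j < n + 1
      · rw [coeff_pol_lt _ hj3] at hj hj2
        exact ⟨_, hj, hj2⟩
      · rw [coeff_pol_ge _ (by omega)] at hj
        exact absurd rfl hj
  rw [eval_pol_eq] at hi
  have h1 := h L x y hxy P hP _ hN i hi
  unfold Cm ct
  rw [eval_pol_eq]
  rcases h1 with h1 | ⟨h1, h2⟩
  · left
    rw [h1, sub_self]
  · right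
    exact ⟨h1, by linarith⟩

/-- A holomorphic map from the punctured disc whose coordinates have meromorphic ratios extends. -/
theorem extends_minf {n : ℕ} {f : ℂ → Fin (n + 1) → ℂ}
    (hf : ∀ j, AnalyticOnNhd ℂ (fun z => f z j) (PB 1)) (hne : ∀ w ∈ PB 1, f w ≠ 0)
    (hM : ∀ i, MeromorphicOn (fun z => f z⁻¹ i) (exD 1 one_pos).U)
    (h : ∀ i j, cl _ (hM j) ≠ 0 → cl _ (hM i) / cl _ (hM j) ∈ Minf 1 one_pos) : Extends f := by
  have hco : ∀ i, ∀ z ∈ Ext 1, AnalyticAt ℂ (fun z => f z⁻¹ i) z := by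
    intro i z hz
    have hz1 : 1 < ‖z‖ := hz
    have hz0 : z ≠ 0 := by
      rintro rfl
      rw [norm_zero] at hz1
      linarith
    have h1 : z⁻¹ ∈ PB 1 := ⟨inv_ne_zero hz0, by rw [norm_inv]; exact inv_lt_one_of_one_lt₀ hz1⟩
    exact (hf i z⁻¹ h1).comp (g := fun w => f w i) (f := fun w : ℂ => w⁻¹) (analyticAt_inv hz0)
  refine extends_of f hf hne fun j k _ hk => ?_
  have hk0 : cl _ (hM k) ≠ 0 := by
    intro h0
    apply hk
    filter_upwards [PB_mem one_pos] with w hw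
    have h1 := cl_eq_zero.1 h0 w⁻¹ (inv_mem_ext hw)
    have h2 := (hco k w⁻¹ (inv_mem_ext hw)).frequently_zero_iff_eventually_zero.1
      h1.frequently
    have h3 := h2.self_of_nhds
    rwa [inv_inv] at h3
  obtain ⟨g, hg, hgx, hgi⟩ := h j k hk0
  have hrel : ∀ z ∈ Ext 1, ∀ᶠ w in 𝓝[≠] z, f w⁻¹ j = g w * f w⁻¹ k := by
    have h1 : cl _ (hM j) = cl (g * fun z => f z⁻¹ k) (hg.mul (hM k)) := by
      rw [← cl_mul hg (hM k), hgx, div_mul_cancel₀ _ hk0]
    exact cl_eq.1 h1
  refine ⟨fun w => g w⁻¹, hgi, ?_⟩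
  filter_upwards [hgi.eventually_analyticAt, PB_mem one_pos] with w hw hwP
  have h1 : Tendsto (fun v : ℂ => v⁻¹) (𝓝[≠] w) (𝓝[≠] w⁻¹) := by
    refine tendsto_nhdsWithin_iff.2 ⟨(continuousAt_inv₀ hwP.1).tendsto.mono_left
      nhdsWithin_le_nhds, ?_⟩
    filter_upwards [self_mem_nhdsWithin] with v hv
    intro h0
    exact hv (inv_injective h0)
  have h2 := h1.eventually (hrel w⁻¹ (inv_mem_ext hwP))
  simp only [inv_inv] at h2
  have h3 : AnalyticAt ℂ (fun v => f v j - g v⁻¹ * f v k) w :=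
    (hf j w hwP).fun_sub (hw.fun_mul (hf k w hwP))
  have h4 := h3.frequently_zero_iff_eventually_zero.1 (Filter.Eventually.frequently (by
    filter_upwards [h2] with v hv
    rw [hv, sub_self]))
  exact sub_eq_zero.1 h4.self_of_nhds

variable {N n q r : ℕ}

/-- **Picard's theorem** for maps to the space of polynomials. -/
theorem disc_extends {X D : BiSet N n} {a : Fin q → ℂ} (ha : Function.Injective a) {A : ℕ}
    {m c : Fin q → ℕ} (hc : Wts r A m c) (hbound : A * (2 * n) < ∑ i, c i)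
    (hR : Ramified X D a m) {u : ℂ → Fin (N + 1) → ℂ} {v : ℂ → Fin (n + 1) → ℂ}
    (huv : QDisc X D u v) {G : MvPolynomial (Fin (n + 1)) ℂ}
    (hG : ∀ (M : Type) [Field M] [Algebra ℂ M] (x : Fin (N + 1) → M) (y : Fin (n + 1) → M),
      X.Mem x y → MvPolynomial.aeval y G ≠ 0 →
        ∀ p : Polynomial M, Irreducible p → ¬ p ^ (r + 1) ∣ pol y)
    {z0 : ℂ} (hz0 : z0 ∈ PB 1) (hGz : MvPolynomial.eval (v z0) G ≠ 0) : Extends v := by
  have hu := fun j => an_of_diffOn huv.diffu j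
  have hv := fun j => an_of_diffOn huv.diffv j
  have hmemz : ∀ z ∈ PB 1, QMem X D (u z) (v z) := fun z hz => huv.mem z (mem_disc.mpr hz)
  have hinvE : ∀ z ∈ Ext 1, z⁻¹ ∈ PB 1 ∧ z ≠ 0 := by
    intro z hz
    have hz1 : 1 < ‖z‖ := hz
    have hz0 : z ≠ 0 := by
      rintro rfl
      rw [norm_zero] at hz1
      linarith
    exact ⟨⟨inv_ne_zero hz0, by rw [norm_inv]; exact inv_lt_one_of_one_lt₀ hz1⟩, hz0⟩
  have han : ∀ {k : ℕ} {f : ℂ → Fin k → ℂ}, (∀ j, AnalyticOnNhd ℂ (fun z => f z j) (PB 1)) →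
      ∀ i, ∀ z ∈ Ext 1, AnalyticAt ℂ (fun z => f z⁻¹ i) z := by
    intro k f hf i z hz
    obtain ⟨h1, h2⟩ := hinvE z hz
    exact (hf i z⁻¹ h1).comp (g := fun w => f w i) (f := fun w : ℂ => w⁻¹) (analyticAt_inv h2)
  -- the coordinates as one family
  let F : Fin (N + 1) ⊕ Fin (n + 1) → ℂ → ℂ :=
    fun s z => Sum.elim (u z⁻¹) (v z⁻¹) s
  have hFan : ∀ s, ∀ z ∈ Ext 1, AnalyticAt ℂ (F s) z := by
    rintro (j | j) z hz
    · exact han hu j z hz
    · exact han hv j z hz
  have hFM : ∀ s, MeromorphicOn (F s) (exD 1 one_pos).U := fun s z hz =>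
    (hFan s z hz).meromorphicAt
  let x : Fin (N + 1) → MK (exD 1 one_pos) := fun j => cl (F (Sum.inl j)) (hFM _)
  let y : Fin (n + 1) → MK (exD 1 one_pos) := fun j => cl (F (Sum.inr j)) (hFM _)
  have hxy : (fun s => cl (F s) (hFM s)) = Sum.elim x y := by
    funext s
    rcases s with s | s <;> rfl
  have hval : ∀ P : BiPoly N n, ∃ h : MeromorphicOn
      (fun z => MvPolynomial.eval (Sum.elim (u z⁻¹) (v z⁻¹)) P) (exD 1 one_pos).U,
      MvPolynomial.aeval (Sum.elim x y) P =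
        cl (fun z => MvPolynomial.eval (Sum.elim (u z⁻¹) (v z⁻¹)) P) h := by
    intro P
    have h1 := eval_mero' P hFM
    refine ⟨h1, ?_⟩
    rw [← hxy]
    exact aeval_cl P hFM h1
  have hPan : ∀ P : BiPoly N n, ∀ z ∈ Ext 1,
      AnalyticAt ℂ (fun z => MvPolynomial.eval (Sum.elim (u z⁻¹) (v z⁻¹)) P) z := by
    intro P z hz
    simp only [MvPolynomial.eval_eq']
    apply Finset.analyticAt_fun_sum
    intro α _
    apply AnalyticAt.fun_mul analyticAt_const
    apply Finset.analyticAt_fun_prod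
    intro s _
    exact (hFan s z hz).fun_pow _
  have hnz : ∀ (f : ℂ → ℂ) (hf : MeromorphicOn f (exD 1 one_pos).U), ∀ z ∈ Ext 1,
      AnalyticAt ℂ f z → f z ≠ 0 → cl f hf ≠ 0 := by
    intro f hf z hz hfa hfz h0
    have h2 := (hfa.frequently_zero_iff_eventually_zero.1 (cl_eq_zero.1 h0 z hz).frequently)
    exact hfz h2.self_of_nhds
  have h0P : z0⁻¹ ∈ Ext 1 := inv_mem_ext hz0
  -- the point over the field of meromorphic functions
  have hmem : X.Mem x y := by
    obtain ⟨⟨ha', hb, _⟩, _⟩ := hmemz z0 hz0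
    refine ⟨?_, ?_, ?_⟩
    · intro h0
      apply ha'
      funext j
      by_contra hj
      refine hnz _ (hFM (Sum.inl j)) _ h0P (hFan _ _ h0P) ?_ (congrFun h0 j)
      change u z0⁻¹⁻¹ j ≠ 0
      rw [inv_inv]
      exact hj
    · intro h0
      apply hb
      funext j
      by_contra hj
      refine hnz _ (hFM (Sum.inr j)) _ h0P (hFan _ _ h0P) ?_ (congrFun h0 j)
      change v z0⁻¹⁻¹ j ≠ 0
      rw [inv_inv]
      exact hj
    · intro P hP
      obtain ⟨h1, h2⟩ := hval P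
      rw [h2, cl_eq_zero]
      intro z hz
      filter_upwards [nhdsWithin_le_nhds ((Ext_open 1).mem_nhds hz)] with w hw
      exact (hmemz w⁻¹ (hinvE w hw).1).1.2.2 P hP
  -- the centres
  have hcen : ∀ (z : ℂ) (hz : z ∈ (exD 1 one_pos).U), ¬ CentreIn D x y (PL hz) := by
    intro z hz hcen
    have hz' : z⁻¹ ∈ PB 1 := (hinvE z hz).1
    obtain ⟨⟨hu0, hv0, -⟩, hD⟩ := hmemz z⁻¹ hz'
    have hnorm : ∀ {k : ℕ} (f : ℂ → Fin k → ℂ) (g : Fin k → ℂ → ℂ)
        (hg : ∀ j, MeromorphicOn (g j) (exD 1 one_pos).U), (∀ j, g j = fun z => f z⁻¹ j) →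
        (∀ j, ∀ z ∈ Ext 1, AnalyticAt ℂ (g j) z) → f z⁻¹ ≠ 0 →
        Norm (PL hz) (fun j => cl (g j) (hg j)) 0 := by
      intro k f g hg hgf hga hf0
      constructor
      · intro j hj
        rcases ge_cl (hg := hg j) hz (hga j z hz) with h1 | h1
        · exact absurd h1 hj
        · exact h1
      · obtain ⟨j, hj⟩ := Function.ne_iff.mp hf0
        have hgj : g j z ≠ 0 := by
          rw [hgf j]
          exact hj
        refine ⟨j, hnz _ (hg j) z hz (hga j z hz) hgj, ?_⟩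
        have h1 : analyticOrderAt (g j) z = ((0 : ℕ) : ℕ∞) := by
          rw [Nat.cast_zero, (hga j z hz).analyticOrderAt_eq_zero]
          exact hgj
        have := ord_cl (hg := hg j) hz (hga j z hz) h1
        exact_mod_cast this
    have hNa : Norm (PL hz) x 0 := hnorm u (fun j => F (Sum.inl j)) (fun j => hFM _)
      (fun j => rfl) (fun j => hFan _) hu0
    have hNb : Norm (PL hz) y 0 := hnorm v (fun j => F (Sum.inr j)) (fun j => hFM _)
      (fun j => rfl) (fun j => hFan _) hv0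
    apply hD
    refine ⟨hu0, hv0, fun P hP => ?_⟩
    obtain ⟨E, E', hE⟩ := D.hom P hP
    by_contra hne
    have hne' : MvPolynomial.eval (Sum.elim (u z⁻¹) (v z⁻¹)) P ≠ 0 := hne
    obtain ⟨h1, h2⟩ := hval P
    rcases hcen 0 0 hNa hNb P hP E E' hE with h3 | h3
    · rw [h2] at h3
      exact hnz _ h1 z hz (hPan P z hz) hne' h3
    · rw [h2] at h3
      have h4 : analyticOrderAt (fun z => MvPolynomial.eval (Sum.elim (u z⁻¹) (v z⁻¹)) P) z =
          ((0 : ℕ) : ℕ∞) := by
        rw [Nat.cast_zero, (hPan P z hz).analyticOrderAt_eq_zero]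
        exact hne'
      have h5 := ord_cl (hg := h1) hz (hPan P z hz) h4
      rw [h5] at h3
      simp at h3
  -- no roots of high multiplicity
  have hGne : MvPolynomial.aeval y G ≠ 0 := by
    have h1 : MvPolynomial.aeval y G =
        MvPolynomial.aeval (Sum.elim x y) (MvPolynomial.rename Sum.inr G) := by
      rw [MvPolynomial.aeval_rename]
      rfl
    rw [h1]
    obtain ⟨h2, h3⟩ := hval (MvPolynomial.rename Sum.inr G)
    rw [h3]
    refine hnz _ h2 _ h0P (hPan _ _ h0P) ?_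
    rw [inv_inv, MvPolynomial.eval_rename]
    exact hGz
  have hmult := hG _ x y hmem hGne
  obtain ⟨s, H', hs, hH'⟩ := wt_Minf a ha hc hbound (pol y) (pol_ne hmem.2.1)
    (natDegree_pol_le y) hmult fun z hz i hi => hR.cm hmem (hcen z hz) i hi
  refine extends_minf hv (fun w hw => (hmemz w hw).1.2.1) (fun i => hFM (Sum.inr i)) fun i j hj => ?_
  have hco : ∀ l : Fin (n + 1), cl (F (Sum.inr l)) (hFM _) =
      s * algebraMap (Minf 1 one_pos) (MK (exD 1 one_pos)) (H'.coeff (l : ℕ)) := by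
    intro l
    have h1 := coeff_pol y l
    rw [hH', Polynomial.coeff_C_mul, Polynomial.coeff_map] at h1
    exact h1.symm
  change cl (F (Sum.inr i)) _ / cl (F (Sum.inr j)) _ ∈ _
  rw [hco i, hco j, mul_div_mul_left _ _ hs, ← map_div₀]
  exact (H'.coeff (i : ℕ) / H'.coeff (j : ℕ) : Minf 1 one_pos).2

end Pool.Agent.Y216.LG
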